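import Pool.Agent.TH451.BK.Defs
import Pool.Agent.QCube.Lll

set_option autoImplicit false

/-! # Job E1 of the BK project (helper451): a sparse vertex gets two repeated colours -/

namespace Pool.Agent.TH194.BK

open Finset Pool.Agent.TH451.BK
open scoped Classical

variable {V : Type} [Fintype V]

/-- ordered nonadjacent pairs inside `U` -/
noncomputable def pr (G : SimpleGraph V) (U : Finset V) : Finset (V × V) :=
  (U ×ˢ U).filter (fun p => p.1 ≠ p.2 ∧ ¬ G.Adj p.1 p.2)

lemma mem_pr (G : SimpleGraph V) (U : Finset V) (p : V × V) :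
    p ∈ pr G U ↔ p.1 ∈ U ∧ p.2 ∈ U ∧ p.1 ≠ p.2 ∧ ¬ G.Adj p.1 p.2 := by
  simp [pr, and_assoc]

lemma pr_mono (G : SimpleGraph V) {U U' : Finset V} (h : U ⊆ U') : pr G U ⊆ pr G U' := by
  intro p hp
  rw [mem_pr] at hp ⊢
  exact ⟨h hp.1, h hp.2.1, hp.2.2⟩

lemma mem_nb (G : SimpleGraph V) (v w : V) : w ∈ nb G v ↔ G.Adj v w := by simp [nb]

lemma pr_nb_fiber (G : SimpleGraph V) (v x : V) (hx : x ∈ nb G v) :
    ((pr G (nb G v)).filter (fun p => p.1 = x)).card = (nn G v x).card := by
  refine Finset.card_bij' (fun p _ => p.2) (fun y _ => (x, y)) ?_ ?_ ?_ ?_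
  · intro p hp
    rw [mem_filter, mem_pr] at hp
    obtain ⟨⟨h1, h2, h3, h4⟩, rfl⟩ := hp
    simp only [nn, mem_filter, mem_univ, true_and]
    exact ⟨(mem_nb G v _).1 h2, h3.symm, h4⟩
  · intro y hy
    simp only [nn, mem_filter, mem_univ, true_and] at hy
    rw [mem_filter, mem_pr]
    exact ⟨⟨hx, (mem_nb G v _).2 hy.1, hy.2.1.symm, hy.2.2⟩, rfl⟩
  · intro p hp
    rw [mem_filter] at hp
    obtain ⟨-, rfl⟩ := hp
    rfl
  · intro y _
    rfl

lemma card_pr_nb (G : SimpleGraph V) (v : V) : (pr G (nb G v)).card = prs G v := by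
  unfold prs
  rw [Finset.card_eq_sum_card_fiberwise (f := fun p => p.1) (t := nb G v)]
  · exact Finset.sum_congr rfl fun x hx => pr_nb_fiber G v x hx
  · intro p hp
    exact ((mem_pr _ _ _).1 hp).1

/-- the set of vertices that matter for a pair -/
noncomputable def Zs (G : SimpleGraph V) (v : V) (p : V × V) : Finset V :=
  nb G v ∪ nb G p.1 ∪ nb G p.2

/-- in the row `y` exactly the pair `p` is active in `Zs` -/
def Cyl {N : ℕ} (G : SimpleGraph V) (v : V) (p : V × V) (y : V → Fin N) : Prop :=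
  ∀ z ∈ Zs G v p, ((y z).val = 0 ↔ z = p.1 ∨ z = p.2)

/-- the row `y` is good for the set `U` -/
def Good {N : ℕ} (G : SimpleGraph V) (v : V) (U : Finset V) (y : V → Fin N) : Prop :=
  ∃ p ∈ pr G U, Cyl G v p y

lemma card_Zs (G : SimpleGraph V) (v : V) (p : V × V) (d : ℕ) (hdeg : ∀ v, (nb G v).card ≤ d) :
    (Zs G v p).card ≤ 3 * d := by
  have h1 := card_union_le (nb G v ∪ nb G p.1) (nb G p.2)
  have h2 := card_union_le (nb G v) (nb G p.1)
  have := hdeg v
  have := hdeg p.1
  have := hdeg p.2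
  unfold Zs
  omega

/-- lower bound for the number of rows in a cylinder -/
lemma card_Cyl (G : SimpleGraph V) (v : V) (p : V × V) (hp : p.1 ≠ p.2) (d : ℕ) (hd : 1 ≤ d)
    (hdeg : ∀ v, (nb G v).card ≤ d) :
    13 / 16 * (Fintype.card (V → Fin (16 * d)) : ℝ) / ((16 * d : ℕ) : ℝ) ^ 2 ≤
      ((univ.filter (fun y : V → Fin (16 * d) => Cyl G v p y)).card : ℝ) := by
  obtain ⟨N, hN⟩ : ∃ N, N = 16 * d := ⟨_, rfl⟩
  have hN1 : 1 ≤ N := by omega
  have hNr : (1 : ℝ) ≤ (N : ℝ) := by exact_mod_cast hN1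
  rw [← hN]
  set S : V → Finset (Fin N) := fun z =>
    univ.filter (fun a : Fin N => z ∈ Zs G v p → (a.val = 0 ↔ z = p.1 ∨ z = p.2)) with hS
  have h1 : (univ.filter (fun y : V → Fin N => Cyl G v p y)) = Fintype.piFinset S := by
    ext y
    simp only [mem_filter, mem_univ, true_and, Fintype.mem_piFinset, hS, Cyl]
  have hzero : (univ.filter (fun a : Fin N => a.val = 0)).card = 1 := by
    rw [Finset.card_eq_one]
    refine ⟨⟨0, hN1⟩, ?_⟩
    ext a
    simp [Fin.ext_iff]
  have hnz : (univ.filter (fun a : Fin N => ¬ a.val = 0)).card = N - 1 := by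
    have h := Finset.card_filter_add_card_filter_not (s := (univ : Finset (Fin N)))
      (fun a => a.val = 0)
    rw [hzero, card_univ, Fintype.card_fin] at h
    omega
  have h2 : ∀ z, (if z ∈ ({p.1, p.2} : Finset V) then 1 / (N : ℝ) else 1) *
      ((if z ∈ Zs G v p then (1 - 1 / (N : ℝ)) else 1) * N) ≤ ((S z).card : ℝ) := by
    intro z
    have hq0 : 0 ≤ 1 - 1 / (N : ℝ) := by
      rw [sub_nonneg, div_le_one (by linarith)]
      exact hNr
    have hq1 : 1 - 1 / (N : ℝ) ≤ 1 := by
      have : 0 ≤ 1 / (N : ℝ) := by positivity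
      linarith
    by_cases hz : z ∈ Zs G v p
    · by_cases hz2 : z = p.1 ∨ z = p.2
      · have e1 : S z = univ.filter (fun a : Fin N => a.val = 0) := by
          rw [hS]
          refine Finset.filter_congr fun a _ => ?_
          simp [hz, hz2]
        rw [e1, hzero, if_pos hz, if_pos (by simpa using hz2)]
        have : 1 / (N : ℝ) * ((1 - 1 / (N : ℝ)) * N) = 1 - 1 / (N : ℝ) := by field_simp
        rw [this]
        simpa using hq1
      · have e1 : S z = univ.filter (fun a : Fin N => ¬ a.val = 0) := by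
          rw [hS]
          refine Finset.filter_congr fun a _ => ?_
          simp [hz, hz2]
        rw [e1, hnz, if_pos hz, if_neg (by simpa using hz2)]
        rw [Nat.cast_sub hN1]
        have : 1 * ((1 - 1 / (N : ℝ)) * N) = N - 1 := by field_simp
        rw [this]
        simp
    · have e1 : S z = univ := by
        rw [hS]
        refine Finset.filter_true_of_mem fun a _ h => absurd h hz
      rw [e1, card_univ, Fintype.card_fin, if_neg hz]
      split_ifs
      · rw [one_mul]
        have : 1 / (N : ℝ) * N = 1 := by field_simp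
        rw [this]; exact hNr
      · simp
  have h3 : ∏ z, ((if z ∈ ({p.1, p.2} : Finset V) then 1 / (N : ℝ) else 1) *
      ((if z ∈ Zs G v p then (1 - 1 / (N : ℝ)) else 1) * N)) ≤ ∏ z, ((S z).card : ℝ) := by
    refine Finset.prod_le_prod (fun z _ => ?_) (fun z _ => h2 z)
    have hq0 : 0 ≤ 1 - 1 / (N : ℝ) := by
      rw [sub_nonneg, div_le_one (by linarith)]
      exact hNr
    split_ifs <;> positivity
  have h4 : ∏ z, ((if z ∈ ({p.1, p.2} : Finset V) then 1 / (N : ℝ) else 1) *
      ((if z ∈ Zs G v p then (1 - 1 / (N : ℝ)) else 1) * N)) =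
      (1 / (N : ℝ)) ^ 2 * ((1 - 1 / (N : ℝ)) ^ (Zs G v p).card * (N : ℝ) ^ Fintype.card V) := by
    rw [Finset.prod_mul_distrib, Finset.prod_mul_distrib, Finset.prod_ite_mem, univ_inter,
      Finset.prod_ite_mem, univ_inter, prod_const, prod_const, prod_const, card_univ,
      Finset.card_pair hp]
  have h5 : (13 : ℝ) / 16 ≤ (1 - 1 / (N : ℝ)) ^ (Zs G v p).card := by
    have hb := one_add_mul_le_pow (a := -(1 / (N : ℝ))) (by
      have : 1 / (N : ℝ) ≤ 1 := by rw [div_le_one (by linarith)]; exact hNr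
      linarith) (Zs G v p).card
    rw [← sub_eq_add_neg] at hb
    refine le_trans ?_ hb
    have hc : ((Zs G v p).card : ℝ) ≤ 3 * d := by exact_mod_cast card_Zs G v p d hdeg
    have hd' : (1 : ℝ) ≤ d := by exact_mod_cast hd
    have hNd : (N : ℝ) = 16 * d := by rw [hN]; push_cast; ring
    have : ((Zs G v p).card : ℝ) * (1 / (N : ℝ)) ≤ 3 / 16 := by
      rw [hNd, mul_one_div, div_le_div_iff₀ (by positivity) (by norm_num)]
      nlinarith
    linarith
  rw [h1, Fintype.card_piFinset, Nat.cast_prod]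
  refine le_trans ?_ (h4 ▸ h3)
  rw [Fintype.card_fun, Fintype.card_fin, Nat.cast_pow]
  have h6 : 0 ≤ (1 / (N : ℝ)) ^ 2 * (N : ℝ) ^ Fintype.card V := by positivity
  calc 13 / 16 * (N : ℝ) ^ Fintype.card V / (N : ℝ) ^ 2
      = 13 / 16 * ((1 / (N : ℝ)) ^ 2 * (N : ℝ) ^ Fintype.card V) := by field_simp
    _ ≤ (1 - 1 / (N : ℝ)) ^ (Zs G v p).card * ((1 / (N : ℝ)) ^ 2 * (N : ℝ) ^ Fintype.card V) := by
        gcongr
    _ = _ := by ring

/-- every row is in the cylinders of at most two pairs -/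
lemma card_pairs_le {N : ℕ} (G : SimpleGraph V) (v : V) (U : Finset V) (hU : U ⊆ nb G v)
    (y : V → Fin N) : ((pr G U).filter (fun p => Cyl G v p y)).card ≤ 2 := by
  rcases ((pr G U).filter (fun p => Cyl G v p y)).eq_empty_or_nonempty with h | ⟨p, hp⟩
  · rw [h]; simp
  · have hsub : (pr G U).filter (fun p => Cyl G v p y) ⊆ {p, p.swap} := by
      intro p' hp'
      rw [mem_filter, mem_pr] at hp hp'
      obtain ⟨⟨a1, a2, a3, -⟩, a5⟩ := hp
      obtain ⟨⟨b1, b2, b3, -⟩, b5⟩ := hp'
      have key : ∀ z ∈ nb G v, ((z = p.1 ∨ z = p.2) ↔ (z = p'.1 ∨ z = p'.2)) := by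
        intro z hz
        rw [← a5 z (by simp [Zs, hz]), ← b5 z (by simp [Zs, hz])]
      have k1 := (key _ (hU b1)).2 (Or.inl rfl)
      have k2 := (key _ (hU b2)).2 (Or.inr rfl)
      rw [mem_insert, mem_singleton]
      rcases k1 with k1 | k1
      · rcases k2 with k2 | k2
        · exact absurd (k1.trans k2.symm) b3
        · left; exact Prod.ext k1 k2
      · rcases k2 with k2 | k2
        · right; exact Prod.ext k1 k2
        · exact absurd (k1.trans k2.symm) b3
    exact (card_le_card hsub).trans Finset.card_le_two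

/-- many rows are good for a set with many nonadjacent pairs -/
lemma card_Good (G : SimpleGraph V) (v : V) (U : Finset V) (hU : U ⊆ nb G v) (d : ℕ) (hd : 1 ≤ d)
    (hdeg : ∀ v, (nb G v).card ≤ d) :
    ((pr G U).card : ℝ) * (13 / 32 * (Fintype.card (V → Fin (16 * d)) : ℝ) /
      ((16 * d : ℕ) : ℝ) ^ 2) ≤
      ((univ.filter (fun y : V → Fin (16 * d) => Good G v U y)).card : ℝ) := by
  have h1 : ((pr G U).card : ℝ) * (13 / 16 * (Fintype.card (V → Fin (16 * d)) : ℝ) /
      ((16 * d : ℕ) : ℝ) ^ 2) ≤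
      ∑ p ∈ pr G U, ((univ.filter (fun y : V → Fin (16 * d) => Cyl G v p y)).card : ℝ) := by
    rw [← nsmul_eq_mul]
    refine Finset.card_nsmul_le_sum _ _ _ fun p hp => ?_
    exact card_Cyl G v p ((mem_pr _ _ _).1 hp).2.2.1 d hd hdeg
  have h2 : ∑ p ∈ pr G U, (univ.filter (fun y : V → Fin (16 * d) => Cyl G v p y)).card =
      ∑ y : V → Fin (16 * d), ((pr G U).filter (fun p => Cyl G v p y)).card := by
    exact Finset.sum_card_bipartiteAbove_eq_sum_card_bipartiteBelow (fun p y => Cyl G v p y)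
  have h3 : ∑ y : V → Fin (16 * d), ((pr G U).filter (fun p => Cyl G v p y)).card ≤
      2 * (univ.filter (fun y : V → Fin (16 * d) => Good G v U y)).card := by
    have e2 : 2 * (univ.filter (fun y : V → Fin (16 * d) => Good G v U y)).card =
        ∑ y : V → Fin (16 * d), if Good G v U y then 2 else 0 := by
      rw [← Finset.sum_filter, Finset.sum_const, smul_eq_mul, mul_comm]
    rw [e2]
    refine Finset.sum_le_sum fun y _ => ?_
    split_ifs with hg
    · exact card_pairs_le G v U hU y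
    · rw [Nat.le_zero, Finset.card_eq_zero, Finset.filter_eq_empty_iff]
      intro p hp hc
      exact hg ⟨p, hp, hc⟩
  have h4 : ∑ p ∈ pr G U, ((univ.filter (fun y : V → Fin (16 * d) => Cyl G v p y)).card : ℝ) ≤
      2 * ((univ.filter (fun y : V → Fin (16 * d) => Good G v U y)).card : ℝ) := by
    rw [← h2] at h3
    exact_mod_cast h3
  have h5 := h1.trans h4
  have e : ((pr G U).card : ℝ) * (13 / 16 * (Fintype.card (V → Fin (16 * d)) : ℝ) /
      ((16 * d : ℕ) : ℝ) ^ 2) = 2 * (((pr G U).card : ℝ) *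
      (13 / 32 * (Fintype.card (V → Fin (16 * d)) : ℝ) / ((16 * d : ℕ) : ℝ) ^ 2)) := by ring
  rw [e] at h5
  linarith

/-- the vertices of `U` not activated by the first rows -/
noncomputable def cut {N n : ℕ} (ys : Fin n → V → Fin N) (U : Finset V) (i : ℕ) : Finset V :=
  U.filter (fun z => ∀ j : Fin n, j.val < i → ¬ (ys j z).val = 0)

lemma cut_zero {N n : ℕ} (ys : Fin n → V → Fin N) (U : Finset V) : cut ys U 0 = U := by
  unfold cut
  refine Finset.filter_true_of_mem fun z _ j hj => absurd hj (Nat.not_lt_zero _)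

lemma cut_subset {N n : ℕ} (ys : Fin n → V → Fin N) (U : Finset V) (i : ℕ) : cut ys U i ⊆ U :=
  Finset.filter_subset _ _

lemma cut_cons {N n : ℕ} (y : V → Fin N) (ys : Fin n → V → Fin N) (U : Finset V) (i : ℕ) :
    cut (Fin.cons y ys : Fin (n + 1) → V → Fin N) U (i + 1) =
      cut ys (U.filter (fun z => ¬ (y z).val = 0)) i := by
  ext z
  simp only [cut, mem_filter, Fin.forall_fin_succ, Fin.cons_zero, Fin.cons_succ, Fin.val_zero,
    Fin.val_succ, Nat.succ_pos, true_implies, Nat.add_lt_add_iff_right, and_assoc]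
  
/-- the weight of a sequence of rows -/
noncomputable def wt {N n : ℕ} (G : SimpleGraph V) (v : V) (e : ℕ) (ys : Fin n → V → Fin N)
    (U : Finset V) : ℝ :=
  (∏ i : Fin n, if Good G v (cut ys U i.val) (ys i) then (1 / 2 : ℝ) else 1) *
    (if e ≤ 2 * (pr G (cut ys U n)).card then 1 else 0)

lemma wt_nonneg {N n : ℕ} (G : SimpleGraph V) (v : V) (e : ℕ) (ys : Fin n → V → Fin N)
    (U : Finset V) : 0 ≤ wt G v e ys U := by
  unfold wt
  refine mul_nonneg (Finset.prod_nonneg fun i _ => ?_) ?_ <;> split_ifs <;> norm_num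

lemma wt_cons {N n : ℕ} (G : SimpleGraph V) (v : V) (e : ℕ) (y : V → Fin N)
    (ys : Fin n → V → Fin N) (U : Finset V) :
    wt G v e (Fin.cons y ys : Fin (n + 1) → V → Fin N) U =
      (if Good G v U y then (1 / 2 : ℝ) else 1) *
        wt G v e ys (U.filter (fun z => ¬ (y z).val = 0)) := by
  unfold wt
  rw [Fin.prod_univ_succ]
  simp only [Fin.cons_zero, Fin.cons_succ, Fin.val_zero, Fin.val_succ, cut_zero, cut_cons]
  ring

/-- if `U` has few pairs then the weight vanishes -/
lemma wt_eq_zero {N n : ℕ} (G : SimpleGraph V) (v : V) (e : ℕ) (ys : Fin n → V → Fin N)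
    (U : Finset V) (h : ¬ e ≤ 2 * (pr G U).card) : wt G v e ys U = 0 := by
  unfold wt
  have h1 := card_le_card (pr_mono G (cut_subset ys U n))
  rw [if_neg (by omega), mul_zero]

lemma sum_wt (G : SimpleGraph V) (v : V) (e d : ℕ) (hd : 1 ≤ d)
    (hdeg : ∀ v, (nb G v).card ≤ d) (q : ℝ) (hq1 : q ≤ 1)
    (hq : q ≤ (e : ℝ) / 2 * (13 / 32) / ((16 * d : ℕ) : ℝ) ^ 2) :
    ∀ (n : ℕ) (U : Finset V) (_ : U ⊆ nb G v),
    ∑ ys : Fin n → V → Fin (16 * d), wt G v e ys U ≤
      ((1 - q / 2) * (Fintype.card (V → Fin (16 * d)) : ℝ)) ^ n := by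
  intro n
  have hYpos : (0 : ℝ) ≤ (Fintype.card (V → Fin (16 * d)) : ℝ) := Nat.cast_nonneg _
  have hbase : 0 ≤ (1 - q / 2) * (Fintype.card (V → Fin (16 * d)) : ℝ) :=
    mul_nonneg (by linarith) hYpos
  induction n with
  | zero =>
    intro U _
    rw [pow_zero, Fintype.sum_unique]
    unfold wt
    simp only [Finset.univ_eq_empty, Finset.prod_empty, one_mul]
    split_ifs <;> norm_num
  | succ n ih =>
    intro U hU
    by_cases hcase : e ≤ 2 * (pr G U).card
    · rw [← (Fin.consEquiv (fun _ : Fin (n + 1) => V → Fin (16 * d))).sum_comp,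
        Fintype.sum_prod_type]
      have hs : ∀ y : V → Fin (16 * d), ∑ ys : Fin n → V → Fin (16 * d),
          wt G v e ((Fin.consEquiv (fun _ : Fin (n + 1) => V → Fin (16 * d))) (y, ys)) U ≤
          (if Good G v U y then (1 / 2 : ℝ) else 1) *
            ((1 - q / 2) * (Fintype.card (V → Fin (16 * d)) : ℝ)) ^ n := by
        intro y
        have : ∀ ys : Fin n → V → Fin (16 * d),
            wt G v e ((Fin.consEquiv (fun _ : Fin (n + 1) => V → Fin (16 * d))) (y, ys)) U =
            (if Good G v U y then (1 / 2 : ℝ) else 1) *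
            wt G v e ys (U.filter (fun z => ¬ (y z).val = 0)) := fun ys => wt_cons G v e y ys U
        rw [Finset.sum_congr rfl fun ys _ => this ys, ← Finset.mul_sum]
        refine mul_le_mul_of_nonneg_left (ih _ ((Finset.filter_subset _ _).trans hU)) ?_
        split_ifs <;> norm_num
      refine (Finset.sum_le_sum fun y _ => hs y).trans ?_
      rw [← Finset.sum_mul, pow_succ, mul_comm]
      refine mul_le_mul_of_nonneg_left ?_ (pow_nonneg hbase n)
      have hG := card_Good G v U hU d hd hdeg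
      have hsum : ∑ y : V → Fin (16 * d), (if Good G v U y then (1 / 2 : ℝ) else 1) =
          (Fintype.card (V → Fin (16 * d)) : ℝ) -
            1 / 2 * ((univ.filter (fun y : V → Fin (16 * d) => Good G v U y)).card : ℝ) := by
        have : ∀ y : V → Fin (16 * d), (if Good G v U y then (1 / 2 : ℝ) else 1) =
            1 - 1 / 2 * (if Good G v U y then 1 else 0) := by
          intro y; split_ifs <;> norm_num
        rw [Finset.sum_congr rfl fun y _ => this y, Finset.sum_sub_distrib, ← Finset.mul_sum,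
          Finset.sum_boole]
        simp
      rw [hsum]
      have hcr : (e : ℝ) / 2 ≤ ((pr G U).card : ℝ) := by
        have : (e : ℝ) ≤ 2 * ((pr G U).card : ℝ) := by exact_mod_cast hcase
        linarith
      have hfin : q * (Fintype.card (V → Fin (16 * d)) : ℝ) ≤
          ((univ.filter (fun y : V → Fin (16 * d) => Good G v U y)).card : ℝ) := by
        refine le_trans ?_ hG
        calc q * (Fintype.card (V → Fin (16 * d)) : ℝ)
            ≤ ((e : ℝ) / 2 * (13 / 32) / ((16 * d : ℕ) : ℝ) ^ 2) *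
              (Fintype.card (V → Fin (16 * d)) : ℝ) := by gcongr
          _ = (e : ℝ) / 2 * (13 / 32 * (Fintype.card (V → Fin (16 * d)) : ℝ) /
              ((16 * d : ℕ) : ℝ) ^ 2) := by ring
          _ ≤ _ := by gcongr
      linarith
    · rw [Finset.sum_eq_zero fun ys _ => wt_eq_zero G v e ys U hcase]
      exact pow_nonneg hbase _

end Pool.Agent.TH194.BK
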