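import Pool.Agent.TH194.BK.E1

set_option autoImplicit false

/-! # Job E1 of the BK project, assembly -/

namespace Pool.Agent.TH194.BK

open Finset Pool.Agent.TH451.BK
open scoped Classical

variable {V : Type} [Fintype V]

lemma good_imp {k N : ℕ} (G : SimpleGraph V) (v : V) (ω : V → Fin k → Fin N) (c : Fin k)
    (h : Good G v (cut (fun c z => ω z c) (nb G v) c.val) (fun z => ω z c)) :
    ∃ x ∈ nb G v, ∃ y ∈ nb G v, x ≠ y ∧ isCol G ω x c ∧ isCol G ω y c := by
  obtain ⟨p, hp, hc⟩ := h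
  rw [mem_pr] at hp
  obtain ⟨h1, h2, h3, h4⟩ := hp
  have hx : p.1 ∈ nb G v := cut_subset _ _ _ h1
  have hy : p.2 ∈ nb G v := cut_subset _ _ _ h2
  have hc1 : ∀ c' < c, ¬ act ω p.1 c' := by
    intro c' hc'
    unfold cut at h1
    exact (mem_filter.1 h1).2 c' hc'
  have hc2 : ∀ c' < c, ¬ act ω p.2 c' := by
    intro c' hc'
    unfold cut at h2
    exact (mem_filter.1 h2).2 c' hc'
  have a1 : act ω p.1 c := (hc p.1 (by simp [Zs, hx])).2 (Or.inl rfl)
  have a2 : act ω p.2 c := (hc p.2 (by simp [Zs, hy])).2 (Or.inr rfl)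
  refine ⟨p.1, hx, p.2, hy, h3, ⟨⟨a1, ?_⟩, fun c' hc' hr => hc1 c' hc' hr.1⟩,
    ⟨⟨a2, ?_⟩, fun c' hc' hr => hc2 c' hc' hr.1⟩⟩
  · intro z hz ha
    have hz' : z ∈ Zs G v p := by
      simp only [Zs, mem_union]
      exact Or.inl (Or.inr ((mem_nb G _ _).2 hz))
    rcases (hc z hz').1 ha with rfl | rfl
    · exact G.loopless.irrefl _ hz
    · exact h4 hz
  · intro z hz ha
    have hz' : z ∈ Zs G v p := by
      simp only [Zs, mem_union]
      exact Or.inr ((mem_nb G _ _).2 hz)
    rcases (hc z hz').1 ha with rfl | rfl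
    · exact h4 hz.symm
    · exact G.loopless.irrefl _ hz

lemma wt_ge {k N : ℕ} (G : SimpleGraph V) (v : V) (e : ℕ) (ω : V → Fin k → Fin N)
    (h1 : (univ.filter (fun c : Fin k => ∃ x ∈ nb G v, ∃ y ∈ nb G v, x ≠ y ∧
        isCol G ω x c ∧ isCol G ω y c)).card ≤ 1)
    (h2 : e ≤ 2 * (pr G (cut (fun c z => ω z c) (nb G v) k)).card) :
    (1 : ℝ) ≤ 2 * wt G v e (fun c z => ω z c) (nb G v) := by
  unfold wt
  rw [if_pos h2, mul_one]
  have h3 : ∏ i : Fin k, (if Good G v (cut (fun c z => ω z c) (nb G v) i.val)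
      (fun z => ω z i) then (1 / 2 : ℝ) else 1) =
      (1 / 2) ^ (univ.filter (fun i : Fin k => Good G v (cut (fun c z => ω z c) (nb G v) i.val)
      (fun z => ω z i))).card := by
    rw [Finset.prod_ite, Finset.prod_const, Finset.prod_const_one, mul_one]
  rw [h3]
  have h4 : (univ.filter (fun i : Fin k => Good G v (cut (fun c z => ω z c) (nb G v) i.val)
      (fun z => ω z i))).card ≤ 1 := by
    refine le_trans (card_le_card ?_) h1
    intro c hc
    rw [mem_filter] at hc ⊢
    exact ⟨hc.1, good_imp G v ω c hc.2⟩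
  have h5 : (1 / 2 : ℝ) ^ 1 ≤ (1 / 2) ^ (univ.filter (fun i : Fin k =>
      Good G v (cut (fun c z => ω z c) (nb G v) i.val) (fun z => ω z i))).card :=
    pow_le_pow_of_le_one (by norm_num) (by norm_num) h4
  linarith

/-- the first event -/
lemma event_one (G : SimpleGraph V) (v : V) (k e d : ℕ) (hd : 1 ≤ d)
    (hdeg : ∀ v, (nb G v).card ≤ d) (q : ℝ) (hq1 : q ≤ 1)
    (hq : q ≤ (e : ℝ) / 2 * (13 / 32) / ((16 * d : ℕ) : ℝ) ^ 2) :
    ((univ.filter (fun ω : V → Fin k → Fin (16 * d) =>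
      (univ.filter (fun c : Fin k => ∃ x ∈ nb G v, ∃ y ∈ nb G v, x ≠ y ∧
        isCol G ω x c ∧ isCol G ω y c)).card ≤ 1 ∧
      e ≤ 2 * (pr G (cut (fun c z => ω z c) (nb G v) k)).card)).card : ℝ) ≤
      2 * (1 - q / 2) ^ k * (Fintype.card (V → Fin k → Fin (16 * d)) : ℝ) := by
  have h1 : ((univ.filter (fun ω : V → Fin k → Fin (16 * d) =>
      (univ.filter (fun c : Fin k => ∃ x ∈ nb G v, ∃ y ∈ nb G v, x ≠ y ∧
        isCol G ω x c ∧ isCol G ω y c)).card ≤ 1 ∧
      e ≤ 2 * (pr G (cut (fun c z => ω z c) (nb G v) k)).card)).card : ℝ) ≤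
      ∑ ω : V → Fin k → Fin (16 * d), 2 * wt G v e (fun c z => ω z c) (nb G v) := by
    rw [Finset.card_eq_sum_ones, Nat.cast_sum, Finset.sum_filter]
    refine Finset.sum_le_sum fun ω _ => ?_
    split_ifs with h
    · rw [Nat.cast_one]
      exact wt_ge G v e ω h.1 h.2
    · exact mul_nonneg (by norm_num) (wt_nonneg _ _ _ _ _)
  refine h1.trans ?_
  rw [← Finset.mul_sum]
  have h2 : ∑ ω : V → Fin k → Fin (16 * d), wt G v e (fun c z => ω z c) (nb G v) =
      ∑ ys : Fin k → V → Fin (16 * d), wt G v e ys (nb G v) :=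
    (Equiv.piComm (fun (_ : V) (_ : Fin k) => Fin (16 * d))).sum_comp
      (fun ys => wt G v e ys (nb G v))
  rw [h2]
  have h3 := sum_wt G v e d hd hdeg q hq1 hq k (nb G v) (Finset.Subset.refl _)
  have h4 : (Fintype.card (V → Fin k → Fin (16 * d)) : ℝ) =
      (Fintype.card (V → Fin (16 * d)) : ℝ) ^ k := by
    rw [Fintype.card_congr (Equiv.piComm (fun (_ : V) (_ : Fin k) => Fin (16 * d))),
      Fintype.card_fun, Fintype.card_fin]
    push_cast
    rfl
  rw [h4, mul_assoc, ← mul_pow]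
  linarith

/-- number of samples in which a given vertex is activated for a given colour -/
lemma card_act (k N : ℕ) (hN : 1 ≤ N) (x : V) (c : Fin k) :
    ((univ.filter (fun ω : V → Fin k → Fin N => act ω x c)).card : ℝ) =
      (Fintype.card (V → Fin k → Fin N) : ℝ) / N := by
  have hNr : (0 : ℝ) < (N : ℝ) := by exact_mod_cast hN
  set S : V → Fin k → Finset (Fin N) := fun z c' =>
    univ.filter (fun a : Fin N => z = x ∧ c' = c → a.val = 0) with hS
  have h1 : (univ.filter (fun ω : V → Fin k → Fin N => act ω x c)) =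
      Fintype.piFinset (fun z => Fintype.piFinset (S z)) := by
    ext ω
    simp only [mem_filter, mem_univ, true_and, Fintype.mem_piFinset, hS, act]
    constructor
    · rintro h z c' ⟨rfl, rfl⟩
      exact h
    · intro h
      exact h x c ⟨rfl, rfl⟩
  have hzero : (univ.filter (fun a : Fin N => a.val = 0)).card = 1 := by
    rw [Finset.card_eq_one]
    refine ⟨⟨0, hN⟩, ?_⟩
    ext a
    simp [Fin.ext_iff]
  have h2 : ∀ z c', ((S z c').card : ℝ) =
      (if z = x then (if c' = c then 1 / (N : ℝ) else 1) else 1) * N := by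
    intro z c'
    by_cases hz : z = x
    · by_cases hc : c' = c
      · have e1 : S z c' = univ.filter (fun a : Fin N => a.val = 0) := by
          rw [hS]
          refine Finset.filter_congr fun a _ => ?_
          simp [hz, hc]
        rw [e1, hzero, if_pos hz, if_pos hc]
        field_simp
        norm_num
      · have e1 : S z c' = univ := by
          rw [hS]
          exact Finset.filter_true_of_mem fun a _ h => absurd h.2 hc
        rw [e1, if_pos hz, if_neg hc]
        simp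
    · have e1 : S z c' = univ := by
        rw [hS]
        exact Finset.filter_true_of_mem fun a _ h => absurd h.1 hz
      rw [e1, if_neg hz]
      simp
  have h3 : ∀ z, ∏ c', ((S z c').card : ℝ) = (if z = x then 1 / (N : ℝ) else 1) * N ^ k := by
    intro z
    rw [Finset.prod_congr rfl fun c' _ => h2 z c', Finset.prod_mul_distrib, prod_const, card_univ,
      Fintype.card_fin]
    congr 1
    split_ifs
    · rw [Finset.prod_ite_eq' univ c, if_pos (mem_univ _)]
    · rw [prod_const_one]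
  rw [h1, Fintype.card_piFinset, Nat.cast_prod]
  have h4 : ∀ z, ((Fintype.piFinset (S z)).card : ℝ) =
      (if z = x then 1 / (N : ℝ) else 1) * N ^ k := by
    intro z
    rw [Fintype.card_piFinset, Nat.cast_prod]
    exact h3 z
  rw [Finset.prod_congr rfl fun z _ => h4 z, Finset.prod_mul_distrib, prod_const, card_univ,
    Finset.prod_ite_eq' univ x, if_pos (mem_univ _), Fintype.card_fun, Fintype.card_fun,
    Fintype.card_fin, Fintype.card_fin]
  push_cast
  ring

/-- the weights -/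
noncomputable def cw (G : SimpleGraph V) (v : V) (x : V) : ℝ :=
  if x ∈ nb G v then 2 * ((nn G v x).card : ℝ) else 0

lemma cw_nonneg (G : SimpleGraph V) (v : V) (x : V) : 0 ≤ cw G v x := by
  unfold cw; split_ifs <;> positivity

lemma sum_cw (G : SimpleGraph V) (v : V) : ∑ x, cw G v x = 2 * (prs G v : ℝ) := by
  unfold cw prs
  rw [← Finset.sum_filter, ← Finset.mul_sum]
  push_cast
  congr 2
  ext x; simp

lemma nn_le (G : SimpleGraph V) (v x : V) (d : ℕ) (hdeg : ∀ v, (nb G v).card ≤ d) :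
    (nn G v x).card ≤ d := by
  refine (card_le_card ?_).trans (hdeg v)
  intro y hy
  simp only [nn, mem_filter, mem_univ, true_and] at hy
  exact (mem_nb _ _ _).2 hy.1

lemma sum_cw_sq (G : SimpleGraph V) (v : V) (d : ℕ) (hdeg : ∀ v, (nb G v).card ≤ d) :
    ∑ x, cw G v x ^ 2 ≤ 4 * d * (prs G v : ℝ) := by
  have h1 : ∀ x, cw G v x ^ 2 ≤ 2 * d * cw G v x := by
    intro x
    have h2 : cw G v x ≤ 2 * d := by
      unfold cw
      split_ifs
      · have := nn_le G v x d hdeg
        have : ((nn G v x).card : ℝ) ≤ d := by exact_mod_cast this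
        linarith
      · positivity
    have := cw_nonneg G v x
    nlinarith
  calc ∑ x, cw G v x ^ 2 ≤ ∑ x, 2 * d * cw G v x := Finset.sum_le_sum fun x _ => h1 x
    _ = 4 * d * (prs G v : ℝ) := by rw [← Finset.mul_sum, sum_cw]; ring

/-- the function controlling the number of lost pairs -/
noncomputable def ff {k N : ℕ} (G : SimpleGraph V) (v : V) (ω : V → Fin k → Fin N) : ℝ :=
  ∑ x, cw G v x * (if ∃ c, act ω x c then 1 else 0)

lemma ff_ge {k N : ℕ} (G : SimpleGraph V) (v : V) (ω : V → Fin k → Fin N) :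
    (prs G v : ℝ) - ((pr G (cut (fun c z => ω z c) (nb G v) k)).card : ℝ) ≤ ff G v ω := by
  obtain ⟨W, hW⟩ : ∃ W, W = cut (fun c z => ω z c) (nb G v) k := ⟨_, rfl⟩
  rw [← hW]
  have hmem : ∀ x ∈ nb G v, x ∉ W → ∃ c, act ω x c := by
    intro x hx hxW
    by_contra hcon
    push Not at hcon
    refine hxW ?_
    rw [hW]
    unfold cut
    exact mem_filter.2 ⟨hx, fun j _ => hcon j⟩
  have h1 : pr G (nb G v) ⊆ pr G W ∪ ((pr G (nb G v)).filter (fun p => p.1 ∉ W) ∪
      (pr G (nb G v)).filter (fun p => p.2 ∉ W)) := by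
    intro p hp
    by_cases ha : p.1 ∈ W
    · by_cases hb : p.2 ∈ W
      · apply mem_union_left
        rw [mem_pr] at hp ⊢
        exact ⟨ha, hb, hp.2.2⟩
      · apply mem_union_right
        apply mem_union_right
        exact mem_filter.2 ⟨hp, hb⟩
    · apply mem_union_right
      apply mem_union_left
      exact mem_filter.2 ⟨hp, ha⟩
  have h2 : ((pr G (nb G v)).filter (fun p => p.1 ∉ W)).card =
      ∑ x ∈ (nb G v).filter (fun x => x ∉ W), (nn G v x).card := by
    rw [Finset.card_eq_sum_card_fiberwise (f := fun p => p.1)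
      (t := (nb G v).filter (fun x => x ∉ W))]
    · refine Finset.sum_congr rfl fun x hx => ?_
      rw [← pr_nb_fiber G v x (mem_filter.1 hx).1, Finset.filter_filter]
      congr 1
      refine Finset.filter_congr fun p _ => ?_
      constructor
      · rintro ⟨_, h⟩; exact h
      · intro h
        refine ⟨?_, h⟩
        rw [h]
        exact (mem_filter.1 hx).2
    · intro p hp
      have hp' := mem_filter.1 hp
      exact mem_filter.2 ⟨((mem_pr _ _ _).1 hp'.1).1, hp'.2⟩
  have h3 : ((pr G (nb G v)).filter (fun p => p.2 ∉ W)).card =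
      ((pr G (nb G v)).filter (fun p => p.1 ∉ W)).card := by
    refine Finset.card_bij' (fun p _ => p.swap) (fun p _ => p.swap) ?_ ?_ ?_ ?_
    · intro p hp
      rw [mem_filter, mem_pr] at hp ⊢
      obtain ⟨⟨a, b, c, d⟩, e⟩ := hp
      exact ⟨⟨b, a, c.symm, fun h => d h.symm⟩, e⟩
    · intro p hp
      rw [mem_filter, mem_pr] at hp ⊢
      obtain ⟨⟨a, b, c, d⟩, e⟩ := hp
      exact ⟨⟨b, a, c.symm, fun h => d h.symm⟩, e⟩
    · intro p _; exact Prod.swap_swap p
    · intro p _; exact Prod.swap_swap p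
  have h4 : (pr G (nb G v)).card ≤ (pr G W).card +
      2 * ∑ x ∈ (nb G v).filter (fun x => x ∉ W), (nn G v x).card := by
    have a1 := card_le_card h1
    have a2 := card_union_le (pr G W) ((pr G (nb G v)).filter (fun p => p.1 ∉ W) ∪
      (pr G (nb G v)).filter (fun p => p.2 ∉ W))
    have a3 := card_union_le ((pr G (nb G v)).filter (fun p => p.1 ∉ W))
      ((pr G (nb G v)).filter (fun p => p.2 ∉ W))
    omega
  rw [card_pr_nb] at h4
  have h5 : (2 * ∑ x ∈ (nb G v).filter (fun x => x ∉ W), ((nn G v x).card : ℝ)) ≤ ff G v ω := by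
    unfold ff
    rw [Finset.mul_sum]
    calc ∑ x ∈ (nb G v).filter (fun x => x ∉ W), 2 * ((nn G v x).card : ℝ)
        = ∑ x ∈ (nb G v).filter (fun x => x ∉ W),
          cw G v x * (if ∃ c, act ω x c then 1 else 0) := by
          refine Finset.sum_congr rfl fun x hx => ?_
          have hx' := mem_filter.1 hx
          rw [if_pos (hmem x hx'.1 hx'.2), mul_one]
          unfold cw
          rw [if_pos hx'.1]
      _ ≤ _ := by
          refine Finset.sum_le_sum_of_subset_of_nonneg (Finset.subset_univ _) fun x _ _ => ?_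
          refine mul_nonneg (cw_nonneg _ _ _) ?_
          split_ifs <;> norm_num
  have h6 : (prs G v : ℝ) ≤ ((pr G W).card : ℝ) +
      2 * ∑ x ∈ (nb G v).filter (fun x => x ∉ W), ((nn G v x).card : ℝ) := by
    exact_mod_cast h4
  linarith

lemma ff_mean (G : SimpleGraph V) (v : V) (k N : ℕ) (hN : 16 * k ≤ N) (hN1 : 1 ≤ N) :
    (∑ ω : V → Fin k → Fin N, ff G v ω) / (Fintype.card (V → Fin k → Fin N) : ℝ) ≤
      (prs G v : ℝ) / 8 := by
  have hNr : (0 : ℝ) < (N : ℝ) := by exact_mod_cast hN1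
  have : Nonempty (Fin N) := ⟨⟨0, hN1⟩⟩
  have hΩ : (0 : ℝ) < (Fintype.card (V → Fin k → Fin N) : ℝ) := by
    exact_mod_cast Fintype.card_pos
  have h1 : ∀ x, ∑ ω : V → Fin k → Fin N, (if ∃ c, act ω x c then (1 : ℝ) else 0) ≤
      (Fintype.card (V → Fin k → Fin N) : ℝ) / 16 := by
    intro x
    rw [Finset.sum_boole]
    have h2 : (univ.filter (fun ω : V → Fin k → Fin N => ∃ c, act ω x c)) ⊆
        (univ : Finset (Fin k)).biUnion
          (fun c => univ.filter (fun ω : V → Fin k → Fin N => act ω x c)) := by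
      intro ω hω
      obtain ⟨c, hc⟩ := (mem_filter.1 hω).2
      exact mem_biUnion.2 ⟨c, mem_univ _, mem_filter.2 ⟨mem_univ _, hc⟩⟩
    have h3 : ((univ.filter (fun ω : V → Fin k → Fin N => ∃ c, act ω x c)).card : ℝ) ≤
        ∑ c : Fin k, ((univ.filter (fun ω : V → Fin k → Fin N => act ω x c)).card : ℝ) := by
      exact_mod_cast (card_le_card h2).trans card_biUnion_le
    refine h3.trans ?_
    rw [Finset.sum_congr rfl fun c _ => card_act k N hN1 x c, Finset.sum_const, card_univ,
      Fintype.card_fin, nsmul_eq_mul]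
    have hk : (16 * k : ℝ) ≤ N := by exact_mod_cast hN
    rw [mul_div_assoc', div_le_div_iff₀ hNr (by norm_num)]
    nlinarith
  rw [div_le_iff₀ hΩ]
  unfold ff
  rw [Finset.sum_comm]
  calc ∑ x, ∑ ω : V → Fin k → Fin N, cw G v x * (if ∃ c, act ω x c then 1 else 0)
      = ∑ x, cw G v x * ∑ ω : V → Fin k → Fin N, (if ∃ c, act ω x c then 1 else 0) := by
        refine Finset.sum_congr rfl fun x _ => ?_
        rw [Finset.mul_sum]
    _ ≤ ∑ x, cw G v x * ((Fintype.card (V → Fin k → Fin N) : ℝ) / 16) := by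
        refine Finset.sum_le_sum fun x _ => ?_
        exact mul_le_mul_of_nonneg_left (h1 x) (cw_nonneg _ _ _)
    _ = (prs G v : ℝ) / 8 * (Fintype.card (V → Fin k → Fin N) : ℝ) := by
        rw [← Finset.sum_mul, sum_cw]; ring

/-- the second event -/
lemma event_two (G : SimpleGraph V) (v : V) (k d : ℕ) (hkd : k ≤ d) (hd : 1 ≤ d)
    (hdeg : ∀ v, (nb G v).card ≤ d) (he : 0 < prs G v) :
    ((univ.filter (fun ω : V → Fin k → Fin (16 * d) =>
      ¬ prs G v ≤ 2 * (pr G (cut (fun c z => ω z c) (nb G v) k)).card)).card : ℝ) ≤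
      Real.exp (-(9 * (prs G v : ℝ) / (512 * d))) *
        (Fintype.card (V → Fin k → Fin (16 * d)) : ℝ) := by
  have : Nonempty (Fin (16 * d)) := ⟨⟨0, by omega⟩⟩
  have he' : (0 : ℝ) < (prs G v : ℝ) := by exact_mod_cast he
  have hd' : (0 : ℝ) < (d : ℝ) := by exact_mod_cast hd
  have h1 := Pool.Agent.QCube.mcd_upper (I := V) (X := Fin k → Fin (16 * d)) (fun ω => ff G v ω)
    (cw G v) (cw_nonneg G v) (by
      intro i s s' h
      unfold ff
      rw [← Finset.sum_sub_distrib, Finset.sum_eq_single i]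
      · rw [← mul_sub, abs_mul, abs_of_nonneg (cw_nonneg G v i)]
        refine mul_le_of_le_one_right (cw_nonneg G v i) ?_
        split_ifs <;> norm_num
      · intro x _ hx
        have hxx : s x = s' x := h x hx
        have hiff : (∃ c, act s x c) ↔ (∃ c, act s' x c) := by simp only [act, hxx]
        by_cases hc : ∃ c, act s' x c
        · rw [if_pos hc, if_pos (hiff.2 hc), sub_self]
        · rw [if_neg hc, if_neg (fun h' => hc (hiff.1 h')), sub_self]
      · intro h; exact absurd (mem_univ _) h)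
    (4 * d * (prs G v : ℝ)) (3 * (prs G v : ℝ) / 8) (sum_cw_sq G v d hdeg) (by positivity)
    (by positivity)
  have hmean := ff_mean G v k (16 * d) (by omega) (by omega)
  refine le_trans ?_ (h1.trans (le_of_eq ?_))
  · have : (univ.filter (fun ω : V → Fin k → Fin (16 * d) =>
      ¬ prs G v ≤ 2 * (pr G (cut (fun c z => ω z c) (nb G v) k)).card)) ⊆
      (univ.filter (fun s : V → Fin k → Fin (16 * d) =>
        (∑ s' : V → Fin k → Fin (16 * d), ff G v s') /
          (Fintype.card (V → Fin k → Fin (16 * d)) : ℝ) + 3 * (prs G v : ℝ) / 8 ≤ ff G v s)) := by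
      intro ω hω
      rw [mem_filter] at hω ⊢
      refine ⟨hω.1, ?_⟩
      have h2 := ff_ge G v ω
      have h3 : 2 * ((pr G (cut (fun c z => ω z c) (nb G v) k)).card : ℝ) < (prs G v : ℝ) := by
        exact_mod_cast not_le.1 hω.2
      linarith
    have h4 := card_le_card this
    have h5 : ((univ.filter (fun ω : V → Fin k → Fin (16 * d) =>
      ¬ prs G v ≤ 2 * (pr G (cut (fun c z => ω z c) (nb G v) k)).card)).card : ℝ) ≤
      ((univ.filter (fun s : V → Fin k → Fin (16 * d) =>
        (∑ s' : V → Fin k → Fin (16 * d), ff G v s') /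
          (Fintype.card (V → Fin k → Fin (16 * d)) : ℝ) + 3 * (prs G v : ℝ) / 8 ≤
          ff G v s)).card : ℝ) := by exact_mod_cast h4
    convert h5 using 2
  · congr 2
    field_simp
    norm_num

/-- JOB E1 -/
theorem E1_bound (G : SimpleGraph V) (k t : ℕ) (hk : 100 ≤ k)
    (hdeg : ∀ v, (nb G v).card ≤ k + 1) (v : V) (ht : t * (k + 1) ≤ 8 * prs G v) :
    ((univ.filter (fun ω : V → Fin k → Fin (16 * (k + 1)) =>
      (univ.filter (fun c : Fin k => ∃ x ∈ nb G v, ∃ y ∈ nb G v, x ≠ y ∧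
        isCol G ω x c ∧ isCol G ω y c)).card ≤ 1)).card : ℝ) ≤
      3 * Real.exp (-(t : ℝ) / 50000) *
        (Fintype.card (V → Fin k → Fin (16 * (k + 1))) : ℝ) := by
  have hΩ0 : (0 : ℝ) ≤ (Fintype.card (V → Fin k → Fin (16 * (k + 1))) : ℝ) := Nat.cast_nonneg _
  rcases Nat.eq_zero_or_pos (prs G v) with he | he
  · have ht0 : t = 0 := by
      rw [he] at ht
      have : t * (k + 1) = 0 := by omega
      rcases Nat.mul_eq_zero.1 this with h | h
      · exact h
      · omega
    subst ht0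
    have h1 : ((univ.filter (fun ω : V → Fin k → Fin (16 * (k + 1)) =>
      (univ.filter (fun c : Fin k => ∃ x ∈ nb G v, ∃ y ∈ nb G v, x ≠ y ∧
        isCol G ω x c ∧ isCol G ω y c)).card ≤ 1)).card : ℝ) ≤
        (Fintype.card (V → Fin k → Fin (16 * (k + 1))) : ℝ) := by
      exact_mod_cast card_le_univ _
    simp only [Nat.cast_zero, neg_zero, zero_div, Real.exp_zero, mul_one]
    linarith
  obtain ⟨d, hd⟩ : ∃ d, d = k + 1 := ⟨_, rfl⟩
  obtain ⟨e, hee⟩ : ∃ e, e = prs G v := ⟨_, rfl⟩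
  rw [← hd] at hdeg ht hΩ0 ⊢
  rw [← hee] at he ht
  have hd1 : 1 ≤ d := by omega
  have hdr : (0 : ℝ) < (d : ℝ) := by exact_mod_cast hd1
  have her : (0 : ℝ) < (e : ℝ) := by exact_mod_cast he
  have hkd : (100 : ℝ) / 101 * d ≤ k := by
    have h1 : (100 : ℝ) ≤ k := by exact_mod_cast hk
    rw [hd]; push_cast; linarith
  have hte : (t : ℝ) * d ≤ 8 * e := by exact_mod_cast ht
  have hed : (e : ℝ) ≤ d ^ 2 := by
    have h1 : e ≤ d * d := by
      rw [hee]
      unfold prs
      calc ∑ x ∈ nb G v, (nn G v x).card ≤ ∑ _x ∈ nb G v, d :=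
            Finset.sum_le_sum fun x _ => nn_le G v x d hdeg
        _ = (nb G v).card * d := by rw [Finset.sum_const, smul_eq_mul]
        _ ≤ d * d := Nat.mul_le_mul_right _ (hdeg v)
    rw [sq]
    exact_mod_cast h1
  obtain ⟨q, hq⟩ : ∃ q : ℝ, q = (e : ℝ) / 2 * (13 / 32) / ((16 * d : ℕ) : ℝ) ^ 2 := ⟨_, rfl⟩
  have hqe : q = 13 * e / (16384 * d ^ 2) := by
    rw [hq]; push_cast; field_simp; norm_num
  have hq0 : 0 ≤ q := by rw [hqe]; positivity
  have hq1 : q ≤ 1 := by
    rw [hqe, div_le_one (by positivity)]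
    nlinarith
  have h1 := event_one G v k e d hd1 hdeg q hq1 hq.le
  have h2 := event_two G v k d (by omega) hd1 hdeg (by rw [← hee]; exact he)
  rw [← hee] at h2
  have h3 : (univ.filter (fun ω : V → Fin k → Fin (16 * d) =>
      (univ.filter (fun c : Fin k => ∃ x ∈ nb G v, ∃ y ∈ nb G v, x ≠ y ∧
        isCol G ω x c ∧ isCol G ω y c)).card ≤ 1)) ⊆
      (univ.filter (fun ω : V → Fin k → Fin (16 * d) =>
      (univ.filter (fun c : Fin k => ∃ x ∈ nb G v, ∃ y ∈ nb G v, x ≠ y ∧
        isCol G ω x c ∧ isCol G ω y c)).card ≤ 1 ∧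
      e ≤ 2 * (pr G (cut (fun c z => ω z c) (nb G v) k)).card)) ∪
      (univ.filter (fun ω : V → Fin k → Fin (16 * d) =>
      ¬ e ≤ 2 * (pr G (cut (fun c z => ω z c) (nb G v) k)).card)) := by
    intro ω hω
    rw [mem_filter] at hω
    rw [mem_union, mem_filter, mem_filter]
    by_cases h : e ≤ 2 * (pr G (cut (fun c z => ω z c) (nb G v) k)).card
    · exact Or.inl ⟨mem_univ _, hω.2, h⟩
    · exact Or.inr ⟨mem_univ _, h⟩
  have h4 := (card_le_card h3).trans (card_union_le _ _)
  have h4' : ((univ.filter (fun ω : V → Fin k → Fin (16 * d) =>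
      (univ.filter (fun c : Fin k => ∃ x ∈ nb G v, ∃ y ∈ nb G v, x ≠ y ∧
        isCol G ω x c ∧ isCol G ω y c)).card ≤ 1)).card : ℝ) ≤
      ((univ.filter (fun ω : V → Fin k → Fin (16 * d) =>
      (univ.filter (fun c : Fin k => ∃ x ∈ nb G v, ∃ y ∈ nb G v, x ≠ y ∧
        isCol G ω x c ∧ isCol G ω y c)).card ≤ 1 ∧
      e ≤ 2 * (pr G (cut (fun c z => ω z c) (nb G v) k)).card)).card : ℝ) +
      ((univ.filter (fun ω : V → Fin k → Fin (16 * d) =>
      ¬ e ≤ 2 * (pr G (cut (fun c z => ω z c) (nb G v) k)).card)).card : ℝ) := by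
    exact_mod_cast h4
  have h5 : (1 - q / 2) ^ k ≤ Real.exp (-(t : ℝ) / 50000) := by
    have a1 : 1 - q / 2 ≤ Real.exp (-(q / 2)) := by
      have := Real.add_one_le_exp (-(q / 2))
      linarith
    calc (1 - q / 2) ^ k ≤ Real.exp (-(q / 2)) ^ k :=
          pow_le_pow_left₀ (by linarith) a1 k
      _ = Real.exp (-(q / 2 * k)) := by
          rw [← Real.exp_nat_mul]; congr 1; ring
      _ ≤ Real.exp (-(t : ℝ) / 50000) := by
          apply Real.exp_le_exp.2
          have a2 : (t : ℝ) / 50000 ≤ q / 2 * k := by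
            have a3 : (t : ℝ) ≤ 8 * e / d := by
              rw [le_div_iff₀ hdr]; exact hte
            have a4 : q / 2 * (100 / 101 * d) ≤ q / 2 * k :=
              mul_le_mul_of_nonneg_left hkd (by linarith)
            have a5 : q / 2 * (100 / 101 * d) = 1300 / (101 * 32768) * (e / d) := by
              rw [hqe]; field_simp; norm_num
            have a6 : 0 ≤ (e : ℝ) / d := by positivity
            have a7 : 8 * (e : ℝ) / d = 8 * (e / d) := by ring
            rw [a7] at a3
            linarith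
          have a8 : -(t : ℝ) / 50000 = -(t / 50000) := by ring
          rw [a8]
          linarith
  have h6 : Real.exp (-(9 * (e : ℝ) / (512 * d))) ≤ Real.exp (-(t : ℝ) / 50000) := by
    apply Real.exp_le_exp.2
    have a3 : (t : ℝ) ≤ 8 * e / d := by
      rw [le_div_iff₀ hdr]; exact hte
    have a6 : 0 ≤ (e : ℝ) / d := by positivity
    have a7 : 8 * (e : ℝ) / d = 8 * (e / d) := by ring
    have a8 : -(t : ℝ) / 50000 = -(t / 50000) := by ring
    have a9 : 9 * (e : ℝ) / (512 * d) = 9 / 512 * (e / d) := by ring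
    rw [a7] at a3
    rw [a8, a9]
    linarith
  calc _ ≤ _ := h4'
    _ ≤ 2 * (1 - q / 2) ^ k * (Fintype.card (V → Fin k → Fin (16 * d)) : ℝ) +
        Real.exp (-(9 * (e : ℝ) / (512 * d))) *
        (Fintype.card (V → Fin k → Fin (16 * d)) : ℝ) := add_le_add h1 h2
    _ ≤ 2 * Real.exp (-(t : ℝ) / 50000) * (Fintype.card (V → Fin k → Fin (16 * d)) : ℝ) +
        Real.exp (-(t : ℝ) / 50000) * (Fintype.card (V → Fin k → Fin (16 * d)) : ℝ) := by
        gcongr
    _ = _ := by ring

end Pool.Agent.TH194.BK
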